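import Mathlib

namespace Pool.Agent.H.MP_6a769b_co

open Finset

def PM (n : ℕ) (K : Type) : Set (Fin n → ℕ) := {f | (∀ i, f i ≤ n) ∧ ∃ β : Fin n → K × Bool,
  ∀ i j, i < j → β i = β j → if (β i).2 then f i ≤ f j else f j ≤ f i}

theorem PM_inj (n : ℕ) (K : Type) : ∃ g : PM n K → (Fin n → K × Bool) ×
    (K × Bool → Fin (2 * n) → Prop), Function.Injective g := by
  choose β hβ using fun f : PM n K => f.2.2
  let h : PM n K → K × Bool → Fin n → ℕ := fun f c i => (if c.2 then f.1 i else n - f.1 i) + i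
  have sm : ∀ f c, StrictMono fun i : {i // β f i = c} => h f c i := fun f c i j hij => by
    have := hβ f i j hij (i.2.trans j.2.symm)
    have hij : i.1.val < j.1.val := hij
    rw [i.2] at this
    simp only [h]
    split_ifs at this ⊢ <;> omega
  have lt : ∀ f c i, h f c i < 2 * n := fun f c i => by
    have := f.2.1 i
    have := i.2
    simp only [h]
    split_ifs <;> omega
  refine ⟨fun f => (β f, fun c v => ∃ i, β f i = c ∧ h f c i = v), fun f g e => ?_⟩
  obtain ⟨e1, e2⟩ := Prod.mk.inj e
  ext i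
  have k := (sm f (β f i)).range_inj (g := fun j : {j // β f j = β f i} => h g (β f i) j)
    (by rw [e1]; exact sm g _) |>.1 (by
    ext v
    constructor
    · rintro ⟨j, rfl⟩
      obtain ⟨l, a, b⟩ := (congrFun (congrFun e2 _) ⟨_, lt f _ j⟩).mp ⟨j, j.2, rfl⟩
      exact ⟨⟨l, e1 ▸ a⟩, b⟩
    · rintro ⟨j, rfl⟩
      obtain ⟨l, a, b⟩ := (congrFun (congrFun e2 _) ⟨_, lt g _ j⟩).mpr ⟨j, (congrFun e1 j).symm.trans j.2, rfl⟩
      exact ⟨⟨l, a⟩, b⟩)
  have := congrFun k ⟨i, rfl⟩
  have := f.2.1 i
  have := g.2.1 i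
  simp only [h] at *
  split_ifs at * <;> omega

def det (p q r : ℝ × ℝ) : ℝ := (q.1 - p.1) * (r.2 - p.2) - (q.2 - p.2) * (r.1 - p.1)

variable {n k : ℕ}

abbrev Data (n k : ℕ) := (Fin k → Fin n) × (Fin n → Bool) × (Fin k → PM n (Bool × Bool ⊕ Fin k))

def Rep (z : Fin n → ℝ × ℝ) (d : Data n k) : Prop :=
  (∀ i j l, i < j → j < l → i ∉ Set.range d.1 → j ∉ Set.range d.1 → l ∉ Set.range d.1 →
    SignType.sign (det (z i) (z j) (z l)) = if d.2.1 j then 1 else -1) ∧
  ∀ a i j, SignType.sign (det (z (d.1 a)) (z i) (z j)) = SignType.sign ((i : ℤ) - d.1 a) *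
    SignType.sign ((j : ℤ) - d.1 a) * SignType.sign (((d.2.2 a).1 j : ℤ) - (d.2.2 a).1 i)

theorem Rep.eq {z z' : Fin n → ℝ × ℝ} {d : Data n k} (h : Rep z d) (h' : Rep z' d) (i j l : Fin n) :
    SignType.sign (det (z i) (z j) (z l)) = SignType.sign (det (z' i) (z' j) (z' l)) := by
  have c : ∀ p q r, det p q r = det q r p := fun p q r => by unfold det; ring
  have s : ∀ p q r, det p q r = -det p r q := fun p q r => by unfold det; ring
  have o : ∀ p q, det p p q = 0 := fun p q => by unfold det; ring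
  have m : ∀ i j l, i ∈ Set.range d.1 → SignType.sign (det (z i) (z j) (z l)) =
      SignType.sign (det (z' i) (z' j) (z' l)) := by
    rintro _ j l ⟨a, rfl⟩
    rw [h.2, h'.2]
  have t : ∀ i j l, i < j → j < l → SignType.sign (det (z i) (z j) (z l)) =
      SignType.sign (det (z' i) (z' j) (z' l)) := fun i j l a b => by
    by_cases hi : i ∈ Set.range d.1
    · exact m _ _ _ hi
    by_cases hj : j ∈ Set.range d.1
    · rw [c, c (z' i), m _ _ _ hj]
    by_cases hl : l ∈ Set.range d.1
    · rw [← c, ← c (z' l), m _ _ _ hl]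
    rw [h.1 i j l a b hi hj hl, h'.1 i j l a b hi hj hl]
  have u : ∀ i j l, i < j → i < l → SignType.sign (det (z i) (z j) (z l)) =
      SignType.sign (det (z' i) (z' j) (z' l)) := fun i j l a b => by
    rcases lt_trichotomy j l with e | rfl | e
    · exact t _ _ _ a e
    · rw [c, c (z' i), o, o]
    · rw [s, s (z' i), Left.sign_neg, Left.sign_neg, t _ _ _ b e]
  rcases lt_trichotomy i j with e | rfl | e
  · rcases lt_trichotomy i l with f | rfl | f
    · exact u _ _ _ e f
    · rw [← c, ← c (z' i), o, o]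
    · rw [← c, ← c (z' l), u _ _ _ f (f.trans e)]
  · rw [o, o]
  · rcases lt_trichotomy j l with f | rfl | f
    · rw [c, c (z' i), u _ _ _ f e]
    · rw [c, c (z' i), o, o]
    · rw [← c, ← c (z' l), u _ _ _ (f.trans e) f]

theorem sign_sub {α β : Type} [LinearOrder α] [LinearOrder β] [AddGroup α] [AddGroup β]
    [AddRightStrictMono α] [AddRightStrictMono β] {a b : α} {c d : β} (h : a < b ↔ c < d)
    (h' : b < a ↔ d < c) : SignType.sign (a - b) = SignType.sign (c - d) := by
  simp only [sign_apply, sub_pos, sub_neg, h, h']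

theorem exists_rep (z : Fin n → ℝ × ℝ) (ε : ℝ) (hx : StrictMono fun i => (z i).1 + ε * (z i).2)
    (r : Fin k → Fin n) (hc : ∀ j ∉ Set.range r, z j ∉ convexHull ℝ (z '' {i | i ∉ Set.range r ∧ i ≠ j})) :
    ∃ d : Data n k, Rep z d := by
  classical
  set x : Fin n → ℝ := fun i => (z i).1 + ε * (z i).2 with hxd
  let y : Fin n → ℝ := fun i => (z i).2
  have hd : ∀ i j l, det (z i) (z j) (z l) = (x j - x i) * (y l - y i) - (y j - y i) * (x l - x i) :=
    fun i j l => by simp only [det, hxd, y]; ring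
  let γ : Fin n → Bool := fun j => decide (∃ i l, i < j ∧ j < l ∧ i ∉ Set.range r ∧
    l ∉ Set.range r ∧ 0 ≤ det (z i) (z j) (z l))
  have seg : ∀ j i l, i < j → j < l → i ∉ Set.range r → l ∉ Set.range r →
      z j + (det (z i) (z j) (z l) / (x l - x i)) • (-ε, 1) ∈
        convexHull ℝ (z '' {i | i ∉ Set.range r ∧ i ≠ j}) := fun j i l a b c d => by
    have p1 := sub_pos.2 (hx a)
    have p2 := sub_pos.2 (hx b)
    have p3 := sub_pos.2 (hx (a.trans b))
    have := convex_convexHull ℝ _ (subset_convexHull ℝ (z '' {i | i ∉ Set.range r ∧ i ≠ j})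
      ⟨i, ⟨c, a.ne⟩, rfl⟩) (subset_convexHull ℝ _ ⟨l, ⟨d, b.ne'⟩, rfl⟩) (div_pos p2 p3).le
      (div_pos p1 p3).le (by field_simp; ring)
    convert this using 1
    ext <;> simp only [Prod.fst_add, Prod.snd_add, Prod.smul_fst, Prod.smul_snd, smul_eq_mul] <;>
      field_simp <;> simp only [det, hxd] <;> ring
  have both : ∀ j ∉ Set.range r, ∀ i l i' l', i < j → j < l → i ∉ Set.range r → l ∉ Set.range r →
      i' < j → j < l' → i' ∉ Set.range r → l' ∉ Set.range r → 0 ≤ det (z i) (z j) (z l) →
      0 < det (z i') (z j) (z l') := fun j hj i l i' l' a b c d a' b' c' d' e => not_le.1 fun e' => by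
    have u := seg j i l a b c d
    have u' := seg j i' l' a' b' c' d'
    have t := div_nonneg e (sub_pos.2 (hx (a.trans b))).le
    have t' := div_nonpos_of_nonpos_of_nonneg e' (sub_pos.2 (hx (a'.trans b'))).le
    generalize det (z i) (z j) (z l) / (x l - x i) = s at u t
    generalize det (z i') (z j) (z l') / (x l' - x i') = s' at u' t'
    rcases t.eq_or_lt with rfl | t
    · exact hc j hj (by simpa using u)
    have q : 0 < s - s' := by linarith
    refine hc j hj ?_
    convert convex_convexHull ℝ _ u u' (div_nonneg (neg_nonneg.2 t') q.le) (div_pos t q).le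
      (by field_simp; ring) using 1
    ext <;> simp only [Prod.fst_add, Prod.snd_add, Prod.smul_fst, Prod.smul_snd, smul_eq_mul] <;>
      field_simp <;> ring
  have hγ : ∀ i j l, i < j → j < l → i ∉ Set.range r → j ∉ Set.range r → l ∉ Set.range r →
      if γ j then 0 < det (z i) (z j) (z l) else det (z i) (z j) (z l) < 0 := by
    intro i j l a b c d e
    split_ifs with g
    · obtain ⟨i', l', a', b', c', d', e'⟩ := of_decide_eq_true g
      exact both j d i' l' i l a' b' c' d' a b c e e'
    · exact not_le.1 fun f => g (decide_eq_true ⟨i, l, a, b, c, e, f⟩)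
  let σ : Fin k → Fin n → ℝ := fun a i => (y i - y (r a)) / (x i - x (r a))
  let f : Fin k → Fin n → ℕ := fun a i => (univ.filter fun j => σ a j < σ a i).card
  have f1 : ∀ a i j, σ a i ≤ σ a j → f a i ≤ f a j := fun a i j h =>
    card_le_card fun l hl => by simpa using (mem_filter.1 hl).2.trans_le h
  have f2 : ∀ a i j, σ a i < σ a j ↔ (f a i : ℤ) < f a j := fun a i j => by
    refine ⟨fun h => Nat.cast_lt.2 (card_lt_card ⟨fun l hl => by
      simpa using (mem_filter.1 hl).2.trans h, fun s => by simpa using @s i (by simpa)⟩),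
      fun h => not_le.1 fun e => (Nat.cast_lt.1 h).not_ge (f1 a j i e)⟩
  have ey : ∀ a i, i ≠ r a → y i = y (r a) + σ a i * (x i - x (r a)) := fun a i h => by
    have := sub_ne_zero.2 (hx.injective.ne h)
    simp only [σ]
    field_simp
    ring
  have pm : ∀ a, f a ∈ PM n (Bool × Bool ⊕ Fin k) := fun a => by
    let τ : Fin n → Fin n → ℝ := fun i l => if γ i = decide (i < r a) then σ a l else -σ a l
    let A : Fin n → Prop := fun i => ∃ l, i < l ∧ l ∉ Set.range r ∧ (i < r a ↔ l < r a) ∧
      τ i i ≤ τ i l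
    refine ⟨fun i => (card_le_univ _).trans (by simp), fun i => if h : i ∈ Set.range r then
      (.inr h.choose, true) else (.inl (γ i, decide (i < r a)),
        decide (A i ↔ γ i = decide (i < r a))), fun i j hij e => ?_⟩
    by_cases hi : i ∈ Set.range r <;> by_cases hj : j ∈ Set.range r <;>
      simp only [hi, hj, dif_pos, dif_neg, not_false_eq_true, Prod.mk.injEq, Sum.inr.injEq,
        Sum.inl.injEq, reduceCtorEq, false_and, and_true, decide_eq_decide] at e ⊢
    · exact absurd (hi.choose_spec.symm.trans (e ▸ hj.choose_spec)) hij.ne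
    obtain ⟨⟨e1, e2⟩, e3⟩ := e
    have et : τ i = τ j := funext fun l => by simp only [τ, e1, e2]
    have key : (A i → τ i i ≤ τ i j) ∧ (¬ A i → τ i j ≤ τ i i) := by
      refine ⟨fun c => not_lt.1 fun lt => ?_, fun c => le_of_not_ge fun d => c ⟨j, hij, hj, e2, d⟩⟩
      obtain ⟨l, jl, hl, s, t⟩ : A j := by
        rw [e1, decide_eq_decide.2 e2] at e3
        exact by_contra fun m => m ((e3.1 (iff_of_true c (by_contra fun q =>
          (iff_true_left c).1 (e3.2 (iff_of_false m q)) |> q))).2 (by_contra fun q =>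
          (iff_true_left c).1 (e3.2 (iff_of_false m q)) |> q))
      have g := hγ i j l hij jl hi hj hl
      have x1 : x i < x j := hx hij
      have x2 : x j < x l := hx jl
      rw [show det (z i) (z j) (z l) = (σ a l - σ a j) * ((x l - x (r a)) * (x j - x i)) +
        (σ a i - σ a j) * ((x i - x (r a)) * (x l - x j)) by
          rw [hd, ey a i fun c => hi ⟨a, c.symm⟩, ey a j fun c => hj ⟨a, c.symm⟩,
            ey a l fun c => hl ⟨a, c.symm⟩]; ring] at g
      rw [et] at lt
      by_cases sd : j < r a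
      · have x3 : x l < x (r a) := hx (s.1 sd)
        have q1 := mul_neg_of_neg_of_pos (sub_neg.2 x3) (sub_pos.2 x1)
        have q2 := mul_neg_of_neg_of_pos (sub_neg.2 (x1.trans (x2.trans x3))) (sub_pos.2 x2)
        generalize (x l - x (r a)) * (x j - x i) = u at g q1
        generalize (x i - x (r a)) * (x l - x j) = v at g q2
        cases e : γ j <;> simp [τ, e, sd] at g lt t <;> nlinarith
      · have x3 : x (r a) < x i := hx ((not_lt.1 (mt e2.1 sd)).lt_of_ne fun c => hi ⟨a, c⟩)
        have q1 := mul_pos (sub_pos.2 (x3.trans (x1.trans x2))) (sub_pos.2 x1)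
        have q2 := mul_pos (sub_pos.2 x3) (sub_pos.2 x2)
        generalize (x l - x (r a)) * (x j - x i) = u at g q1
        generalize (x i - x (r a)) * (x l - x j) = v at g q2
        cases e : γ j <;> simp [τ, e, sd] at g lt t <;> nlinarith
    by_cases c : A i <;> by_cases d : γ i = decide (i < r a) <;>
      simp only [c, d, τ, if_true, if_false, neg_le_neg_iff, forall_true_left, not_true,
        not_false_eq_true, false_imp_iff, and_true, true_and] at key <;> simp [c, d, f1 _ _ _ key]
  refine ⟨(r, γ, fun a => ⟨f a, pm a⟩), fun i j l a b c d e => ?_, fun a i j => ?_⟩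
  · have := hγ i j l a b c d e
    split_ifs at this ⊢
    exacts [sign_pos this, sign_neg this]
  · have sx : ∀ i, SignType.sign (x i - x (r a)) = SignType.sign ((i : ℤ) - r a) := fun i =>
      sign_sub (hx.lt_iff_lt.trans (by simp)) (hx.lt_iff_lt.trans (by simp))
    by_cases hi : i = r a
    · simp [hi, det]
    by_cases hj : j = r a
    · simp [hj, det]
    rw [← sx, ← sx, ← sign_sub (f2 a j i) (f2 a i j), ← sign_mul, ← sign_mul, hd, ey a i hi,
      ey a j hj]
    congr 1
    ring

end Pool.Agent.H.MP_6a769b_co
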